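import Pool.Agent.Helper38.Judicious

/-!
# All numbers `m = n (2 n - 1)`

As `Pool.Agent.Helper38.Judicious.main_int`, for all `n` with `10000 t^2 ≤ n`.
-/

set_option autoImplicit false
set_option linter.unusedSectionVars false
set_option linter.unnecessarySeqFocus false

namespace Pool.Agent.Helper38.BK

open Finset Pool.Agent.Helper38.Judicious

/-- arithmetic core -/
lemma arith_core (t n N P Q C : ℤ) (ht : 1 ≤ t) (hn : 10000 * t ^ 2 ≤ n) (hN : 0 ≤ N)
    (hPQC : P + Q + 2 * C = 4 * n ^ 2 - 2 * n) (hCP : P ≤ C)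
    (hsum : N * (n ^ 2 - 2 * t + 1) ≤ N * Q + 2 * C)
    (hPN : P ≤ N * (N - 1)) (hP : n ^ 2 - 2 * t + 1 ≤ P) :
    n + 1 ≤ N ∧ P ≤ n ^ 2 + t ∧ C ≤ n ^ 2 + 2 * t - 1 ∧ N ≤ n + 4 * t := by
  have hnt : 10000 * t ≤ n := by nlinarith
  have hnpos : 0 < n := by linarith
  have h1 : n + 1 ≤ N := by
    by_contra h
    have h' : N ≤ n := by linarith
    have : N * (N - 1) ≤ n * (n - 1) := by nlinarith
    nlinarith
  -- (2N-2) C ≤ N (M2 - T2 - 1 - P)
  have hQ : Q = 4 * n ^ 2 - 2 * n - P - 2 * C := by linarith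
  subst hQ
  have hkey : (2 * N - 2) * C ≤ N * (3 * n ^ 2 - 2 * n + 2 * t - 1 - P) := by nlinarith
  have hkeyP : (2 * N - 2) * P ≤ N * (3 * n ^ 2 - 2 * n + 2 * t - 1 - P) := by
    have : (2 * N - 2) * P ≤ (2 * N - 2) * C := by
      apply mul_le_mul_of_nonneg_left hCP; linarith
    linarith
  have h2 : P ≤ n ^ 2 + t := by
    by_contra h
    have h' : n ^ 2 + t + 1 ≤ P := by linarith
    have e1 : (3 * N - 2) * (n ^ 2 + t + 1) ≤ (3 * N - 2) * P := by
      apply mul_le_mul_of_nonneg_left h'; linarith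
    have e2 : (3 * N - 2) * P ≤ N * (3 * n ^ 2 - 2 * n + 2 * t - 1) := by linarith
    have e3 : N * (2 * n + t + 4) ≤ 2 * (n ^ 2 + t + 1) := by linarith
    have e4 : (n + 1) * (2 * n + t + 4) ≤ N * (2 * n + t + 4) := by
      apply mul_le_mul_of_nonneg_right h1; linarith
    nlinarith
  have h3 : C ≤ n ^ 2 + 2 * t - 1 := by
    by_contra h
    have h' : n ^ 2 + 2 * t ≤ C := by linarith
    have e1 : (2 * N - 2) * (n ^ 2 + 2 * t) ≤ (2 * N - 2) * C := by
      apply mul_le_mul_of_nonneg_left h'; linarith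
    have e2 : N * (3 * n ^ 2 - 2 * n + 2 * t - 1 - P) ≤
        N * (2 * n ^ 2 - 2 * n + 4 * t - 2) := by
      apply mul_le_mul_of_nonneg_left _ hN; linarith
    have e3 : N * (2 * n + 2) ≤ 2 * (n ^ 2 + 2 * t) := by linarith
    have e4 : (n + 1) * (2 * n + 2) ≤ N * (2 * n + 2) := by
      apply mul_le_mul_of_nonneg_right h1; linarith
    nlinarith
  have h4 : N ≤ n + 4 * t := by
    by_contra h
    have h' : n + 4 * t + 1 ≤ N := by linarith
    have e1 : (3 * N - 2) * (n ^ 2 - 2 * t + 1) ≤ (3 * N - 2) * P := by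
      apply mul_le_mul_of_nonneg_left hP; linarith
    have e2 : (3 * N - 2) * P ≤ N * (3 * n ^ 2 - 2 * n + 2 * t - 1) := by linarith
    have e3 : N * (2 * n - 8 * t + 4) ≤ 2 * (n ^ 2 - 2 * t + 1) := by linarith
    have e4 : (n + 4 * t + 1) * (2 * n - 8 * t + 4) ≤ N * (2 * n - 8 * t + 4) := by
      apply mul_le_mul_of_nonneg_right h'; linarith
    nlinarith
  exact ⟨h1, h2, h3, h4⟩

section main

variable {V : Type} [Fintype V] [DecidableEq V] (a : V → V → ℤ) (hs : ∀ u v, a u v = a v u)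
  (h0 : ∀ v, a v v = 0) (h01 : ∀ u v, a u v = 0 ∨ a u v = 1)

include hs h0 h01 in
theorem main_int (t n : ℤ) (ht : 1 ≤ t) (hn : 10000 * t ^ 2 ≤ n)
    (hm : E a Finset.univ Finset.univ = 4 * n ^ 2 - 2 * n) :
    ∃ S : Finset V, E a S S ≤ n ^ 2 - 2 * t ∧ E a Sᶜ Sᶜ ≤ n ^ 2 - 2 * t := by
  by_contra hcon
  push Not at hcon
  have hnt : 10000 * t ≤ n := by nlinarith
  -- maximum cut
  obtain ⟨V0, hV0⟩ := Finite.exists_max (fun S : Finset V => E a S Sᶜ)
  obtain ⟨V1, hmax, hV1⟩ : ∃ V1 : Finset V, (∀ S, E a S Sᶜ ≤ E a V1 V1ᶜ) ∧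
      E a V1ᶜ V1ᶜ ≤ E a V1 V1 := by
    rcases le_total (E a V0ᶜ V0ᶜ) (E a V0 V0) with h | h
    · exact ⟨V0, hV0, h⟩
    · refine ⟨V0ᶜ, fun S => ?_, by rw [compl_compl]; exact h⟩
      rw [compl_compl, E_comm a hs V0ᶜ V0]
      exact hV0 S
  have hT : n ^ 2 - 2 * t < E a V1 V1 := by
    by_contra h
    have h' := hcon V1 (not_lt.mp h)
    linarith
  -- local optimality
  have hloc : ∀ v ∈ V1, d a v V1 ≤ d a v V1ᶜ := by
    intro v hv
    have e1 := hmax (V1.erase v)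
    have e2 := E_split a hs V1
    have e3 := E_split a hs (V1.erase v)
    have e4 := E_erase_self a hs h0 v V1 hv
    have e5 : E a (V1.erase v)ᶜ (V1.erase v)ᶜ = E a V1ᶜ V1ᶜ + 2 * d a v V1ᶜ := by
      rw [Finset.compl_erase]
      exact E_insert_self a hs h0 v V1ᶜ (by simpa using hv)
    linarith
  -- minimal X
  obtain ⟨X, hXmem, hXmin⟩ := Finset.exists_min_image
    (V1.powerset.filter (fun X => n ^ 2 - 2 * t < E a X X)) (fun X => X.card)
    ⟨V1, by simp [hT]⟩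
  rw [Finset.mem_filter, Finset.mem_powerset] at hXmem
  obtain ⟨hXV, hXT⟩ := hXmem
  have hXe : ∀ v ∈ X, E a (X.erase v) (X.erase v) ≤ n ^ 2 - 2 * t := by
    intro v hv
    by_contra h
    have h' := hXmin (X.erase v) (by
      rw [Finset.mem_filter, Finset.mem_powerset]
      exact ⟨(Finset.erase_subset _ _).trans hXV, not_le.mp h⟩)
    rw [Finset.card_erase_of_mem hv] at h'
    have : 1 ≤ X.card := Finset.card_pos.mpr ⟨v, hv⟩
    omega
  have hYe : ∀ v ∈ X, n ^ 2 - 2 * t + 1 ≤ E a Xᶜ Xᶜ + 2 * d a v Xᶜ := by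
    intro v hv
    have h := hcon (X.erase v) (hXe v hv)
    rw [Finset.compl_erase, E_insert_self a hs h0 v Xᶜ (by simpa using hv)] at h
    linarith
  set D := V1 \ X with hD
  have hV1XD : V1 = X ∪ D := (Finset.union_sdiff_of_subset hXV).symm
  have hXD : Disjoint X D := Finset.disjoint_sdiff
  have hYD : Xᶜ = V1ᶜ ∪ D := by
    ext v
    simp only [Finset.mem_compl, Finset.mem_union, hD, Finset.mem_sdiff]
    by_cases h1 : v ∈ V1 <;> by_cases h2 : v ∈ X <;> simp [h1, h2]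
    exact h1 (hXV h2)
  have hYDd : Disjoint V1ᶜ D := by
    rw [Finset.disjoint_left]
    intro v hv hv2
    rw [Finset.mem_compl] at hv
    rw [hD, Finset.mem_sdiff] at hv2
    exact hv hv2.1
  have hdY : ∀ v ∈ X, d a v X + 2 * d a v D ≤ d a v Xᶜ := by
    intro v hv
    have h1 := hloc v (hXV hv)
    rw [hV1XD, d_union a hXD, ← hV1XD] at h1
    rw [hYD, d_union a hYDd]
    linarith
  have hCP2 : E a X X + 2 * E a X D ≤ E a X Xᶜ := by
    rw [E_eq_sum_d, E_eq_sum_d, E_eq_sum_d, Finset.mul_sum, ← Finset.sum_add_distrib]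
    exact Finset.sum_le_sum hdY
  have hDnn : 0 ≤ E a X D := E_nonneg a h01 X D
  have hCP : E a X X ≤ E a X Xᶜ := by linarith
  have hPQC := E_split a hs X
  rw [hm] at hPQC
  have hsum : (X.card : ℤ) * (n ^ 2 - 2 * t + 1) ≤
      (X.card : ℤ) * E a Xᶜ Xᶜ + 2 * E a X Xᶜ := by
    have h1 : ∑ _v ∈ X, (n ^ 2 - 2 * t + 1) ≤ ∑ v ∈ X, (E a Xᶜ Xᶜ + 2 * d a v Xᶜ) :=
      Finset.sum_le_sum hYe
    rw [Finset.sum_const, nsmul_eq_mul, Finset.sum_add_distrib, Finset.sum_const, nsmul_eq_mul,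
      ← Finset.mul_sum, ← E_eq_sum_d] at h1
    exact h1
  have hPN := E_self_le a h0 h01 X
  obtain ⟨hN1, hP2, hC2, hN2⟩ := arith_core t n X.card (E a X X) (E a Xᶜ Xᶜ) (E a X Xᶜ) ht hn
    (Int.natCast_nonneg _) (by linarith) hCP hsum hPN (by linarith)
  -- degrees
  have hdY2 : ∀ v ∈ X, n - 4 * t + 2 ≤ d a v Xᶜ := by
    intro v hv
    have := hYe v hv
    linarith
  have hdX2 : ∀ v ∈ X, n - 8 * t + 4 ≤ d a v X := by
    intro v hv
    have h1 : ∑ w ∈ X, (d a w Xᶜ - d a w X) = E a X Xᶜ - E a X X := by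
      rw [Finset.sum_sub_distrib, ← E_eq_sum_d, ← E_eq_sum_d]
    have h2 : d a v Xᶜ - d a v X ≤ ∑ w ∈ X, (d a w Xᶜ - d a w X) := by
      refine Finset.single_le_sum (f := fun w => d a w Xᶜ - d a w X) (fun w hw => ?_) hv
      have h3 := hdY w hw
      have h4 := d_nonneg a h01 w D
      show 0 ≤ d a w Xᶜ - d a w X
      linarith
    have h3 := hdY2 v hv
    linarith
  have hXne : X.Nonempty := by
    rw [← Finset.card_pos]
    have : (0 : ℤ) < X.card := by linarith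
    exact_mod_cast this
  -- a vertex of small degree to the complement
  obtain ⟨v0, hv0, hv0min⟩ := Finset.exists_min_image X (fun v => d a v Xᶜ) hXne
  have hv0C : (X.card : ℤ) * d a v0 Xᶜ ≤ E a X Xᶜ := by
    rw [E_eq_sum_d]
    calc (X.card : ℤ) * d a v0 Xᶜ = ∑ _v ∈ X, d a v0 Xᶜ := by
          rw [Finset.sum_const, nsmul_eq_mul]
      _ ≤ _ := Finset.sum_le_sum fun v hv => hv0min v hv
  have hv0Q : E a Xᶜ Xᶜ + 2 * d a v0 Xᶜ ≤ n ^ 2 - 2 * t + 8 * t := by
    by_contra h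
    have h' : n ^ 2 - 2 * t + 8 * t + 1 ≤ E a Xᶜ Xᶜ + 2 * d a v0 Xᶜ := by linarith
    have hNpos : (0 : ℤ) < X.card := by linarith
    have e1 : (X.card : ℤ) * (n ^ 2 - 2 * t + 8 * t + 1) ≤
        X.card * (E a Xᶜ Xᶜ + 2 * d a v0 Xᶜ) := mul_le_mul_of_nonneg_left h' hNpos.le
    have e2 : (X.card : ℤ) * E a Xᶜ Xᶜ = X.card * (4 * n ^ 2 - 2 * n - E a X X - 2 * E a X Xᶜ) := by
      congr 1; linarith
    have e3 : (2 * (X.card : ℤ) - 2) * E a X X ≤ (2 * (X.card : ℤ) - 2) * E a X Xᶜ := by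
      apply mul_le_mul_of_nonneg_left hCP; linarith
    have e4 : (3 * (X.card : ℤ) - 2) * (n ^ 2 - 2 * t + 1) ≤ (3 * (X.card : ℤ) - 2) * E a X X := by
      apply mul_le_mul_of_nonneg_left _ (by linarith); linarith
    have e5 : (n + 1) * (2 * n + 4) ≤ (X.card : ℤ) * (2 * n + 4) := by
      apply mul_le_mul_of_nonneg_right hN1; linarith
    nlinarith
  -- the incidence count of subsets of D
  have hinc : ∀ D' : Finset V, D' ⊆ D →
      E a D' D' + 2 * E a D' (Xᶜ \ D') ≤ 8 * t - 1 := by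
    intro D'
    induction D' using Finset.induction_on with
    | empty => intro _; rw [E_empty_left, E_empty_left]; linarith
    | insert u D'' hu ih =>
      intro hsub
      have ih' := ih ((Finset.subset_insert _ _).trans hsub)
      have huD : u ∈ D := hsub (Finset.mem_insert_self _ _)
      have hD''D : D'' ⊆ D := (Finset.subset_insert _ _).trans hsub
      have hDX : ∀ w ∈ D, w ∉ X := fun w hw => (Finset.mem_sdiff.mp (hD ▸ hw)).2
      have huY : u ∈ Xᶜ \ D'' :=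
        Finset.mem_sdiff.mpr ⟨Finset.mem_compl.mpr (hDX u huD), hu⟩
      -- E(D',D') is small
      have hEsmall : E a (insert u D'') (insert u D'') ≤ 8 * t - 1 := by
        rw [E_insert_self a hs h0 u D'' hu]
        have h1 : d a u D'' ≤ E a D'' (Xᶜ \ D'') := by
          rw [← E_singleton_left, E_comm a hs]
          exact E_mono_right a h01 D'' (Finset.singleton_subset_iff.mpr huY)
        linarith
      set D' := insert u D'' with hD'
      -- the partition Z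
      set Z := (X.erase v0) ∪ D' with hZ
      have hdisj : Disjoint (X.erase v0) D' := by
        rw [Finset.disjoint_left]
        intro w hw hw2
        exact hDX w (hsub hw2) (Finset.mem_of_mem_erase hw)
      have hEZ : E a Z Z ≤ n ^ 2 - 2 * t := by
        rw [hZ, E_union_left a hdisj, E_union_right a hdisj, E_union_right a hdisj,
          E_comm a hs D' (X.erase v0), E_erase_self a hs h0 v0 X hv0]
        have h1 : E a (X.erase v0) D' ≤ E a X D :=
          (E_mono_left a h01 (Finset.erase_subset _ _) D').trans (E_mono_right a h01 X hsub)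
        have h2 := hdX2 v0 hv0
        linarith
      have hZc := hcon Z hEZ
      have hZcompl : Zᶜ = insert v0 (Xᶜ \ D') := by
        ext w
        simp only [hZ, Finset.mem_compl, Finset.mem_union, Finset.mem_erase, Finset.mem_insert,
          Finset.mem_sdiff]
        have hv0D : v0 ∉ D' := fun h => hDX v0 (hsub h) hv0
        by_cases hw : w = v0
        · subst hw
          simp [hv0D]
        · by_cases h1 : w ∈ X <;> by_cases h2 : w ∈ D' <;> simp [hw, h1, h2]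
      have hv0n : v0 ∉ Xᶜ \ D' := by
        simp [hv0]
      rw [hZcompl, E_insert_self a hs h0 v0 _ hv0n] at hZc
      have hd0 : d a v0 (Xᶜ \ D') ≤ d a v0 Xᶜ := d_mono a h01 v0 Finset.sdiff_subset
      have hD'Y : D' ⊆ Xᶜ := fun w hw => Finset.mem_compl.mpr (hDX w (hsub hw))
      have hdis2 : Disjoint D' (Xᶜ \ D') := Finset.disjoint_sdiff
      have hYY : E a Xᶜ Xᶜ = E a D' D' + 2 * E a D' (Xᶜ \ D') + E a (Xᶜ \ D') (Xᶜ \ D') := by
        conv_lhs => rw [← Finset.union_sdiff_of_subset hD'Y]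
        rw [E_union_left a hdis2, E_union_right a hdis2, E_union_right a hdis2,
          E_comm a hs (Xᶜ \ D') D']
        ring
      linarith
  have hDV : 2 * E a D V1ᶜ ≤ 8 * t - 1 := by
    have h1 := hinc D (Finset.Subset.refl _)
    have h2 := E_nonneg a h01 D D
    have h3 : Xᶜ \ D = V1ᶜ := by
      rw [hYD, Finset.union_sdiff_cancel_right hYDd]
    rw [h3] at h1
    linarith
  have hmaxcut : E a V1 V1ᶜ ≤ n ^ 2 + 6 * t := by
    have h1 : E a V1 V1ᶜ = E a X V1ᶜ + E a D V1ᶜ := by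
      rw [← E_union_left a hXD, ← hV1XD]
    have h2 : E a X V1ᶜ ≤ E a X Xᶜ := by
      apply E_mono_right a h01
      rw [hYD]; exact Finset.subset_union_left
    linarith
  -- colour X
  obtain ⟨tn, rfl⟩ : ∃ tn : ℕ, t = tn := ⟨t.toNat, by rw [Int.toNat_of_nonneg]; linarith⟩
  obtain ⟨K, hK, f, hf1, hf2⟩ := exists_coloring_compl a hs h0 h01 (12 * (tn : ℤ)) (by linarith)
    (208 * tn) X (by
      intro v hv
      have := hdX2 v hv
      linarith) (by
      push_cast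
      have : (n + 1) * n ≤ (X.card : ℤ) * (X.card - 1) := by nlinarith
      nlinarith)
  have hKpos : 0 < K := by
    obtain ⟨v, hv⟩ := hXne
    exact lt_of_le_of_lt (Nat.zero_le _) (hf1 v hv)
  have : NeZero K := ⟨hKpos.ne'⟩
  obtain ⟨σ, hσ, hσ2⟩ := color_cut a hs K (fun v => (f v : ZMod K)) X (by
    intro u hu v hv huv h
    apply hf2 u hu v hv huv
    have h1 : ((f u : ZMod K)).val = ((f v : ZMod K)).val := by rw [h]
    rwa [ZMod.val_cast_of_lt (hf1 u hu), ZMod.val_cast_of_lt (hf1 v hv)] at h1)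
  have hKle : (K : ℤ) ≤ n - 204 * tn := by
    have h1 : ((K + 208 * tn : ℕ) : ℤ) ≤ X.card := by exact_mod_cast hK
    push_cast at h1
    linarith
  have hSX : ∑ u ∈ X, ∑ v ∈ X, a u v * (σ u * σ v) ≤ -(n + 204 * tn) := by
    by_contra h
    have h' : -(n + 204 * (tn : ℤ)) + 1 ≤ ∑ u ∈ X, ∑ v ∈ X, a u v * (σ u * σ v) := by linarith
    have hKp : (0 : ℤ) < K := by exact_mod_cast hKpos
    have e1 : (K : ℤ) * (-(n + 204 * (tn : ℤ)) + 1) ≤ - E a X X :=
      (mul_le_mul_of_nonneg_left h' hKp.le).trans hσ2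
    have e2 : (K : ℤ) * (n + 204 * (tn : ℤ) - 1) ≤ (n - 204 * tn) * (n + 204 * (tn : ℤ) - 1) := by
      apply mul_le_mul_of_nonneg_right hKle; linarith
    nlinarith
  -- colour Y
  obtain ⟨kk, hkk⟩ : ∃ kk : ℕ, (kk : ℤ) = n - 1 := ⟨(n - 1).toNat, by
    rw [Int.toNat_of_nonneg]; linarith⟩
  have hkpos : 0 < kk := by
    have : (0 : ℤ) < kk := by linarith
    exact_mod_cast this
  have : NeZero kk := ⟨hkpos.ne'⟩
  obtain ⟨g, hg⟩ := exists_coloring_of_few a hs h0 h01 kk (Xᶜ).card Xᶜ rfl (by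
    rw [hkk]
    nlinarith)
  obtain ⟨τ, hτ, hτ2⟩ := color_cut a hs kk g Xᶜ hg
  have hSY : ∑ u ∈ Xᶜ, ∑ v ∈ Xᶜ, a u v * (τ u * τ v) ≤ -(n - 2) := by
    by_contra h
    have h' : -(n - 2) + 1 ≤ ∑ u ∈ Xᶜ, ∑ v ∈ Xᶜ, a u v * (τ u * τ v) := by linarith
    rw [hkk] at hτ2
    have e1 : (n - 1) * (-(n - 2) + 1) ≤ - E a Xᶜ Xᶜ :=
      (mul_le_mul_of_nonneg_left h' (by linarith)).trans hτ2
    nlinarith
  obtain ⟨ρ, hρ, hρ2⟩ := glue_signs a hs X σ τ hσ hτ
  obtain ⟨S, hS⟩ := signed_sum_cut a hs ρ hρ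
  have hcut := hmax S
  linarith

end main

end Pool.Agent.Helper38.BK
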